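import Mathlib
import Pool.Agent.Results.MP_fe892a_gt.ClosedCounterexample

set_option autoImplicit false

open Set Topology

namespace Pool.Agent.Results.MP_cdfe0d_gt.SolenoidStrips

/-- `K` is a subcontinuum of `S`: a nonempty, compact, connected subset. -/
def Subcontinuum {S : Type*} [TopologicalSpace S] (K : Set S) : Prop :=
  IsCompact K ∧ IsConnected K

/-- `X` is an indecomposable continuum: nonempty, compact, connected, Hausdorff, and not the
union of two proper subcontinua. -/
def IndecomposableContinuum (X : Type*) [TopologicalSpace X] : Prop :=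
  T2Space X ∧ CompactSpace X ∧ ConnectedSpace X ∧
    ¬ ∃ A B : Set X, Subcontinuum A ∧ Subcontinuum B ∧ A ≠ univ ∧ B ≠ univ ∧ A ∪ B = univ

/-- The set function `T` of Jones. -/
def T {S : Type*} [TopologicalSpace S] (A : Set S) : Set S :=
  {p | ∃ K : Set S, Subcontinuum K ∧ p ∈ interior K ∧ K ∩ A = ∅}ᶜ

open Pool.Agent.Results.MP_fe892a_gt.ClosedCounterexample in
/-- There are metrizable indecomposable continua `X`, `Y` and a subcontinuum `W` of `X × Y`
with nonempty interior such that `T(W)` is not all of `X × Y`. -/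
theorem result : ∃ (X Y : Type) (_ : TopologicalSpace X) (_ : TopologicalSpace Y),
    IndecomposableContinuum X ∧ IndecomposableContinuum Y ∧
    TopologicalSpace.MetrizableSpace X ∧ TopologicalSpace.MetrizableSpace Y ∧
    ∃ W : Set (X × Y), Subcontinuum W ∧ (interior W).Nonempty ∧ T W ≠ univ := by
  have hX : IsIndecomposableContinuum (Sol 2) := Sol.indecomposable le_rfl
  have hY : IsIndecomposableContinuum (Sol 3) := Sol.indecomposable (by norm_num)
  refine ⟨Sol 2, Sol 3, inferInstance, inferInstance, hX, hY,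
    Sol.metrizable 2, Sol.metrizable 3, ?_⟩
  let d : Sol 2 × Sol 3 → UnitAddCircle := fun z => z.1.1 0 - z.2.1 0
  have hd : Continuous d := (continuous_c1 0).sub (continuous_c2 0)
  have hstrip : ∀ c : ℝ, Subcontinuum {z | ‖d z - (c : UnitAddCircle)‖ ≤ 1 / 8} := by
    intro c
    refine ⟨?_, isConnected_strip c (1 / 8) (by norm_num)⟩
    exact (isClosed_le (hd.sub continuous_const).norm continuous_const).isCompact
  have hint : ∀ (c : ℝ) (z : Sol 2 × Sol 3), ‖d z - (c : UnitAddCircle)‖ < 1 / 8 →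
      z ∈ interior {z | ‖d z - (c : UnitAddCircle)‖ ≤ 1 / 8} := by
    intro c z hz
    refine interior_maximal (t := {z | ‖d z - (c : UnitAddCircle)‖ < 1 / 8}) ?_ ?_ hz
    · intro w hw
      have hw' : ‖d w - (c : UnitAddCircle)‖ < 1 / 8 := hw
      exact hw'.le
    · exact isOpen_lt (hd.sub continuous_const).norm continuous_const
  refine ⟨{z | ‖d z - ((0 : ℝ) : UnitAddCircle)‖ ≤ 1 / 8}, hstrip 0, ⟨(0, 0), ?_⟩, ?_⟩
  · apply hint
    have : d (0, 0) = 0 := sub_self _
    rw [this, AddCircle.coe_zero, sub_zero, norm_zero]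
    norm_num
  · intro huniv
    have hp : ((zpt, 0) : Sol 2 × Sol 3) ∈
        T {z : Sol 2 × Sol 3 | ‖d z - ((0 : ℝ) : UnitAddCircle)‖ ≤ 1 / 8} := by
      rw [huniv]; trivial
    apply hp
    refine ⟨{z | ‖d z - ((1 / 2 : ℝ) : UnitAddCircle)‖ ≤ 1 / 8}, hstrip (1 / 2), ?_, ?_⟩
    · apply hint
      have : d (zpt, 0) = ((1 / 2 : ℝ) : UnitAddCircle) := by
        show zpt.1 0 - (0 : UnitAddCircle) = _
        rw [zpt_coord, sub_zero]; rfl
      rw [this, sub_self, norm_zero]
      norm_num
    · rw [Set.eq_empty_iff_forall_notMem]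
      rintro z ⟨h1, h2⟩
      have h1' : ‖d z - ((1 / 2 : ℝ) : UnitAddCircle)‖ ≤ 1 / 8 := h1
      have h2' : ‖d z - ((0 : ℝ) : UnitAddCircle)‖ ≤ 1 / 8 := h2
      rw [AddCircle.coe_zero, sub_zero] at h2'
      have h3 := norm_sub_le (d z) (d z - ((1 / 2 : ℝ) : UnitAddCircle))
      rw [sub_sub_cancel, norm_half] at h3
      linarith

end Pool.Agent.Results.MP_cdfe0d_gt.SolenoidStrips
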